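import Mathlib
import Pool.Agent.H450R2.Al.Table

/-!
Ivrii's conjecture, in every dimension and for all periods, for the periodic billiard orbits all
of whose bounces are at algebraic boundary points of the table, the algebraic mirrors being such
that their equation has a leading form not divisible by `x_1² + ... + x_d²`.
-/

set_option autoImplicit false

namespace Pool.Agent.Results.MP_249f74_an.AlgebraicBounces

open MvPolynomial H450Al

/-- The point `x` is a (noncircular) algebraic boundary point of the table `f < 0`: the function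
`f` is `C¹` near `x`, and near `x` the zero set of `f` lies in the zero set of a polynomial `P`
whose leading form (homogeneous part of top degree) is not divisible by `x_1² + ... + x_d²`. -/
def AlgebraicAt {d : ℕ} (f : EuclideanSpace ℝ (Fin d) → ℝ) (x : EuclideanSpace ℝ (Fin d)) :
    Prop :=
  ContDiffAt ℝ 1 f x ∧ ∃ P : MvPolynomial (Fin d) ℝ,
    ¬ (∑ i, X i ^ 2) ∣ homogeneousComponent P.totalDegree P ∧
    ∀ᶠ y : EuclideanSpace ℝ (Fin d) in nhds x, f y = 0 → eval (fun i => y i) P = 0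

/-- The phase points `(x, v)` of the table `f < 0` in `ℝ^d` whose billiard orbit returns to itself
after some `n ≥ 1` bounces, all of them at algebraic boundary points. -/
def ClosedOrbits {d : ℕ} (f : EuclideanSpace ℝ (Fin d) → ℝ) :
    Set (EuclideanSpace ℝ (Fin d) × EuclideanSpace ℝ (Fin d)) :=
  {q | f q.1 = 0 ∧ ‖q.2‖ = 1 ∧ inner ℝ q.2 (gradient f q.1) < 0 ∧
        ∃ n : ℕ, 1 ≤ n ∧ ∃ p u : ℕ → EuclideanSpace ℝ (Fin d),
          p 0 = q.1 ∧ u 0 = q.2 ∧ p n = q.1 ∧ u n = q.2 ∧
          ∀ k < n, f (p k) = 0 ∧ ‖u k‖ = 1 ∧ inner ℝ (u k) (gradient f (p k)) < 0 ∧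
            AlgebraicAt f (p k) ∧
            (∃ t : ℝ, 0 < t ∧ p (k + 1) = p k + t • u k ∧
              ∀ s ∈ Set.Ioo (0 : ℝ) t, f (p k + s • u k) < 0) ∧
            u (k + 1) = u k - (2 * inner ℝ (u k) (gradient f (p (k + 1))) /
                ‖gradient f (p (k + 1))‖ ^ 2) • gradient f (p (k + 1))}

/-- **Ivrii's conjecture for algebraic bounces.** For every table `{f < 0}` in `ℝ^d`, `d ≥ 2`, the
set of phase points whose billiard orbit returns to itself after some `n ≥ 1` bounces, all of them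
at (noncircular) algebraic boundary points, has Hausdorff dimension at most `2 d - 3`; in
particular its `(2d-2)`-dimensional measure is zero. -/
theorem result :
  ∀ (d : ℕ), 2 ≤ d → ∀ (f : EuclideanSpace ℝ (Fin d) → ℝ),
    dimH (ClosedOrbits f) ≤ ((2 * d - 3 : ℕ) : ENNReal) ∧
    MeasureTheory.Measure.hausdorffMeasure ((2 * d - 2 : ℕ) : ℝ) (ClosedOrbits f) = 0 := by
  intro d hd f
  obtain ⟨m, rfl⟩ : ∃ m, d = m + 2 := ⟨d - 2, by omega⟩
  have h3 : (2 * (m + 2) - 3 : ℕ) = 2 * m + 1 := by omega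
  have h2 : (2 * (m + 2) - 2 : ℕ) = 2 * m + 2 := by omega
  have key : dimH (ClosedOrbits f) ≤ ((2 * (m + 2) - 3 : ℕ) : ENNReal) := by
    rw [h3]
    apply dim_orbits f
    rintro ⟨q, v⟩ ⟨hfq, hv, hqv, n, hn, p, u, hp0, hu0, hpn, hun, h⟩
    simp only at hfq hv hqv hp0 hu0 hpn hun
    refine ⟨hv, n, hn, p, u, hp0, hu0, hpn, hun, ?_, fun i hi => ?_⟩
    · have data : ∀ i < n, f (p i) = 0 ∧ gradient f (p i) ≠ 0 ∧ AlgebraicAt f (p i) := by
        intro i hi
        obtain ⟨h1, _, h3, h4, _⟩ := h i hi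
        refine ⟨h1, fun h0 => ?_, h4⟩
        rw [h0, inner_zero_right] at h3
        exact lt_irrefl _ h3
      intro i hi
      have hd : f (p i) = 0 ∧ gradient f (p i) ≠ 0 ∧ AlgebraicAt f (p i) := by
        rcases Nat.lt_or_eq_of_le hi with h1 | h1
        · exact data i h1
        · have h5 := data 0 (by omega)
          rw [hp0] at h5
          rw [h1, hpn]
          exact h5
      obtain ⟨h1, h4, h5, P, h6, h7⟩ := hd
      exact ⟨h1, h4, h5, P, h6, h7⟩
    · obtain ⟨_, _, _, _, ⟨t, ht, hpt, _⟩, hu1⟩ := h i hi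
      exact ⟨⟨t, ht, hpt⟩, hu1⟩
  refine ⟨key, ?_⟩
  have hlt : dimH (ClosedOrbits f) < (((2 * (m + 2) - 2 : ℕ) : NNReal) : ENNReal) := by
    refine lt_of_le_of_lt key ?_
    rw [h3, h2]
    exact_mod_cast Nat.lt_succ_self _
  exact_mod_cast hausdorffMeasure_of_dimH_lt hlt

end Pool.Agent.Results.MP_249f74_an.AlgebraicBounces
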