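import Pool.Agent.H721R2.Quart.G6

/-!
# Ivrii's conjecture for quadrilateral orbits in every dimension `d ≥ 3`

Definitions (files `Pool/Agent/H721R2/Ivrii/Def.lean` and `Pool/Agent/H721R2/Quart/Per.lean`), for a
set `Ω` (the table) in a real inner product space:

* `LocalDef Ω q F`: near `q` the table is `{F < 0}`, `F` is `C³` near `q`, `F q = 0` and the
  gradient of `F` at `q` is not zero;
* `Step Ω q v q' v'`: the particle leaves `q` with velocity `v`, stays in `Ω` until it meets the
  boundary transversally at `q' = q + t v`, `t > 0`, where the boundary is regular of class `C³`,
  and `v'` is the velocity reflected there;
* `Orbit Ω n p u`: `(p k, u k)` is a billiard trajectory of unit speed with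
  `p (k + n) = p k`, `u (k + n) = u k`;
* `PerFour Ω`: the phase points `(q, v)` which start such a trajectory with `n = 4`, i.e. the fixed
  points of the fourth iterate of the billiard map.

The theorem: for every `d ≥ 3` and every `Ω ⊆ ℝ^d`, the set `PerFour Ω` has vanishing
`(2 d - 2)`-dimensional Hausdorff measure.

## Outline of the proof

Near a given quadrilateral trajectory the quadrilaterals which obey the reflection law at two
consecutive vertices depend on the `2 d - 2` parameters of these two vertices (`Raw`, `exists_raw`).
If the closed trajectories had positive measure, then at almost every closed trajectory `z` every
differentiable function which vanishes on the closed trajectories near `z` would have zero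
derivative at `z` (`exists_fam`, `exists_good`). This gives the closing of all Jacobi fields, and
one more derivative of any relation between the first order data which holds almost everywhere.

The product of the four reflections is a rotation `U` of the orthogonal complement `u^⊥` of a side,
which fixes everything orthogonal to the span of `u` and two of the unfolded normals. So `U` is a
rotation in a plane of `u^⊥`, a half turn included, or the identity.

* If `U` is not symmetric (`hol_sym'`): the Jacobi fields give operators `N k` with
  `⟪N k v, U w⟫ = ⟪N k w, U v⟫`, so `N k` is trace free on the plane of `U`; the derivative of this
  relation in the directions which keep the vertex `k` fixed gives a vector relation between the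
  curvature and the normals, whose derivative says that the unfolded curvature operators `G k` form
  an arithmetic progression. They are bounded, so `G` is constant and then `U` is symmetric.
* If `U` is a half turn (`no_phi'`): this is the equation `Φ = 0` for an explicit function of the
  vertices; its derivative determines the curvature of the boundary in the direction of the
  projection of the trajectory, and the derivative of the relation so obtained is a contradiction.
* If `U` is the identity (`no_id'`), the quadrilateral is planar for almost every closed trajectory;
  two derivatives show that all its vertices are umbilic in the relevant directions and the Jacobi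
  fields in the plane and orthogonal to the plane cannot both close.
-/

set_option autoImplicit false

open MeasureTheory

namespace Pool.Agent.Results.MP_249f74_an.FourBounces

open Pool.Agent.H721R2.Quart

/-- For every `d ≥ 3` and every table `Ω` in `ℝ^d` the phase points whose billiard trajectory is
closed after four bounces form a set of `(2 d - 2)`-dimensional Hausdorff measure zero. -/
theorem result (d : ℕ) (hd : 3 ≤ d) (Ω : Set (EuclideanSpace ℝ (Fin d))) :
    μH[((2 * d - 2 : ℕ) : ℝ)] (PerFour Ω) = 0 := by
  have h := perFour_null (E := EuclideanSpace ℝ (Fin d)) (by rw [finrank_euclideanSpace_fin]; exact hd) Ω
  rwa [finrank_euclideanSpace_fin] at h

end Pool.Agent.Results.MP_249f74_an.FourBounces
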