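import Mathlib
import Pool.Agent.H450R2.Sp.Table

/-!
Ivrii's conjecture, in every dimension and for all periods, for the periodic billiard orbits all
of whose bounces are at points near which the boundary lies in a sphere or in a hyperplane.
-/

set_option autoImplicit false

namespace Pool.Agent.Results.MP_249f74_an.SphericalFlatBounces

open H450Sp

/-- The point `x` is a spherical or flat boundary point of the table `f < 0`: the function `f` is
`C¹` near `x`, and near `x` the zero set of `f` lies in a sphere or in a hyperplane. -/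
def RoundAt {d : ℕ} (f : EuclideanSpace ℝ (Fin d) → ℝ) (x : EuclideanSpace ℝ (Fin d)) : Prop :=
  ContDiffAt ℝ 1 f x ∧
    ((∃ c : EuclideanSpace ℝ (Fin d), ∃ R : ℝ, 0 < R ∧
        ∀ᶠ y in nhds x, f y = 0 → dist y c = R) ∨
      (∃ ν : EuclideanSpace ℝ (Fin d), ∃ κ : ℝ, ν ≠ 0 ∧
        ∀ᶠ y in nhds x, f y = 0 → inner ℝ ν y = κ))

noncomputable section

variable {k : ℕ}

/-- the mirror carries the zero set of `f` in `B` -/
def Fits (f : EE k → ℝ) : Mir (Fin (k + 2)) → Set (EE k) → Prop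
  | Mir.sph c R, B => 0 < R ∧ ∀ y ∈ B, f y = 0 → df y.ofLp c ⬝ᵥ df y.ofLp c = R ^ 2
  | Mir.pl ν d, B => ν ≠ 0 ∧ ∀ y ∈ B, f y = 0 → y.ofLp ⬝ᵥ ν = d

/-- normal vector of a mirror -/
def nrm : Mir (Fin (k + 2)) → (Fin (k + 2) → ℝ) → (Fin (k + 2) → ℝ)
  | Mir.sph c _, x => df x c
  | Mir.pl ν _, _ => ν

/-- reflection at a mirror -/
def rfm : Mir (Fin (k + 2)) → (Fin (k + 2) → ℝ) → (Fin (k + 2) → ℝ) → (Fin (k + 2) → ℝ)
  | Mir.sph c R, x, v => srefl c R x v
  | Mir.pl ν _, _, v => pref ν v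

theorem df_dot (y c : EE k) : df y.ofLp c.ofLp ⬝ᵥ df y.ofLp c.ofLp = dist y c ^ 2 := by
  have h1 : df y.ofLp c.ofLp = (y - c).ofLp := rfl
  rw [h1, ← inner_dot, real_inner_self_eq_norm_sq, dist_eq_norm]

theorem round_fits (f : EE k → ℝ) (x : EE k) (h : RoundAt f x) :
    ∃ B ∈ TopologicalSpace.countableBasis (EE k), x ∈ B ∧ ∃ M, Fits f M B := by
  obtain ⟨_, h⟩ := h
  have hb := TopologicalSpace.isBasis_countableBasis (EE k)
  rcases h with ⟨c, R, hR, h⟩ | ⟨ν, κ, hν, h⟩
  · obtain ⟨B, hB, hxB, hsub⟩ := hb.mem_nhds_iff.1 h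
    refine ⟨B, hB, hxB, Mir.sph c.ofLp R, hR, fun y hy hfy => ?_⟩
    rw [df_dot, show dist y c = R from hsub hy hfy]
  · obtain ⟨B, hB, hxB, hsub⟩ := hb.mem_nhds_iff.1 h
    refine ⟨B, hB, hxB, Mir.pl ν.ofLp κ, ?_, fun y hy hfy => ?_⟩
    · intro h0
      apply hν
      have : ν = WithLp.toLp 2 ν.ofLp := rfl
      rw [this, h0]; rfl
    · have h1 : inner ℝ ν y = κ := hsub hy hfy
      rw [inner_dot] at h1
      rw [dotProduct_comm]; exact h1

theorem grad_inner (f : EE k → ℝ) (x τ : EE k) : fderiv ℝ f x τ = inner ℝ (gradient f x) τ := by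
  unfold gradient
  rw [InnerProductSpace.toDual_symm_apply]

theorem fits_normal (f : EE k → ℝ) (M : Mir (Fin (k + 2))) (B : Set (EE k)) (hB : IsOpen B)
    (hM : Fits f M B) (x : EE k) (hx : x ∈ B) (hfx : f x = 0) (hf : ContDiffAt ℝ 1 f x)
    (hg : gradient f x ≠ 0) :
    ∃ l : ℝ, l ≠ 0 ∧ nrm M x.ofLp = l • (gradient f x).ofLp := by
  have hfd : fderiv ℝ f x ≠ 0 := by
    intro h0
    apply hg
    unfold gradient
    rw [h0, map_zero]
  have ext : ∀ (n : EE k) (l : ℝ), (∀ τ, inner ℝ n τ = l * inner ℝ (gradient f x) τ) →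
      n = l • gradient f x := by
    intro n l h
    apply ext_inner_right ℝ
    intro τ
    rw [h τ, inner_smul_left]
    rfl
  cases M with
  | sph c R =>
    obtain ⟨hR, hM⟩ := hM
    set cE : EE k := WithLp.toLp 2 c with hcE
    set φ : EE k → ℝ := fun y => ‖y - cE‖ ^ 2 - R ^ 2 with hφ
    have hφ0 : ∀ y : EE k, df y.ofLp c ⬝ᵥ df y.ofLp c = ‖y - cE‖ ^ 2 := by
      intro y
      have := df_dot y cE
      rw [dist_eq_norm] at this
      exact this
    have hφc : ContDiffAt ℝ 1 φ x := by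
      have h1 : ContDiff ℝ 1 (fun y : EE k => ‖y - cE‖ ^ 2) :=
        (contDiff_id.sub contDiff_const).norm_sq ℝ
      exact (h1.sub contDiff_const).contDiffAt
    obtain ⟨m, hm⟩ := parallel_deriv f φ x hf hφc hfx hfd (by
      filter_upwards [hB.mem_nhds hx] with y hy hfy
      simp only [hφ]
      rw [← hφ0, hM y hy hfy, sub_self])
    have hder : ∀ τ, fderiv ℝ φ x τ = 2 * inner ℝ (x - cE) τ := by
      intro τ
      have h1 : HasFDerivAt (fun y : EE k => y - cE) (ContinuousLinearMap.id ℝ (EE k)) x :=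
        (hasFDerivAt_id x).sub_const cE
      have h2 := (h1.norm_sq).sub_const (R ^ 2)
      have h3 : fderiv ℝ φ x = 2 • ((innerSL ℝ) (x - cE)).comp (ContinuousLinearMap.id ℝ (EE k)) :=
        h2.fderiv
      rw [h3]
      simp [inner_sub_left]
    have hn : x - cE = (m / 2) • gradient f x := by
      apply ext
      intro τ
      have h1 := hder τ
      rw [hm] at h1
      have h2 : (m • fderiv ℝ f x) τ = m * inner ℝ (gradient f x) τ := by
        rw [ContinuousLinearMap.smul_apply, smul_eq_mul, grad_inner]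
      rw [h2] at h1
      linarith
    have hne : x - cE ≠ 0 := by
      intro h0
      have h1 := hM x hx hfx
      rw [hφ0, h0, norm_zero] at h1
      have := pow_pos hR 2
      norm_num at h1
      rw [← h1] at this
      exact lt_irrefl _ this
    refine ⟨m / 2, ?_, ?_⟩
    · intro h0
      rw [h0, zero_smul] at hn
      exact hne hn
    · change (x - cE).ofLp = _
      rw [hn]; rfl
  | pl ν d =>
    obtain ⟨hν, hM⟩ := hM
    set νE : EE k := WithLp.toLp 2 ν with hνE
    set φ : EE k → ℝ := fun y => inner ℝ νE y - d with hφ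
    have hφc : ContDiffAt ℝ 1 φ x := by
      have h1 : ContDiff ℝ 1 (fun y : EE k => inner ℝ νE y) := contDiff_const.inner ℝ contDiff_id
      exact (h1.sub contDiff_const).contDiffAt
    obtain ⟨m, hm⟩ := parallel_deriv f φ x hf hφc hfx hfd (by
      filter_upwards [hB.mem_nhds hx] with y hy hfy
      simp only [hφ]
      rw [inner_dot, dotProduct_comm]
      have := hM y hy hfy
      rw [this, sub_self])
    have hder : ∀ τ, fderiv ℝ φ x τ = inner ℝ νE τ := by
      intro τ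
      have h3 : HasFDerivAt φ ((innerSL ℝ) νE) x :=
        (((innerSL ℝ) νE).hasFDerivAt).sub_const d
      rw [h3.fderiv]
      rfl
    have hn : νE = m • gradient f x := by
      apply ext
      intro τ
      have h1 := hder τ
      rw [hm] at h1
      have h2 : (m • fderiv ℝ f x) τ = m * inner ℝ (gradient f x) τ := by
        rw [ContinuousLinearMap.smul_apply, smul_eq_mul, grad_inner]
      rw [h2] at h1
      exact h1.symm
    refine ⟨m, ?_, ?_⟩
    · intro h0
      rw [h0, zero_smul] at hn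
      apply hν
      have : ν = νE.ofLp := rfl
      rw [this, hn]; rfl
    · change νE.ofLp = _
      rw [hn]; rfl

theorem refl_agree (f : EE k → ℝ) (M : Mir (Fin (k + 2))) (B : Set (EE k)) (hB : IsOpen B)
    (hM : Fits f M B) (x : EE k) (hx : x ∈ B) (hfx : f x = 0) (hf : ContDiffAt ℝ 1 f x)
    (hg : gradient f x ≠ 0) (u : EE k) :
    (u - (2 * inner ℝ u (gradient f x) / ‖gradient f x‖ ^ 2) • gradient f x).ofLp =
      rfm M x.ofLp u.ofLp := by
  obtain ⟨l, hl, hn⟩ := fits_normal f M B hB hM x hx hfx hf hg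
  set g := (gradient f x).ofLp with hgdef
  have hgg : ‖gradient f x‖ ^ 2 = g ⬝ᵥ g := by
    rw [← real_inner_self_eq_norm_sq, inner_dot]
  have hg0 : g ⬝ᵥ g ≠ 0 := by
    rw [← hgg]; exact pow_ne_zero _ (norm_ne_zero_iff.2 hg)
  have e1 : (u - (2 * inner ℝ u (gradient f x) / ‖gradient f x‖ ^ 2) • gradient f x).ofLp =
      u.ofLp - (2 * (u.ofLp ⬝ᵥ g) / (g ⬝ᵥ g)) • g := by
    rw [hgg, inner_dot]; rfl
  rw [e1]
  cases M with
  | sph c R =>
    simp only [nrm] at hn
    simp only [rfm]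
    have hR : R ^ 2 = l ^ 2 * (g ⬝ᵥ g) := by
      rw [← hM.2 x hx hfx, hn, smul_dotProduct, dotProduct_smul, smul_eq_mul, smul_eq_mul]; ring
    rw [srefl_eq, hn, smul_dotProduct, smul_eq_mul, smul_smul, hR, dotProduct_comm g u.ofLp]
    congr 2
    field_simp
  | pl ν d =>
    simp only [nrm] at hn
    simp only [rfm]
    funext i
    rw [pref_apply, hn, dotProduct_smul, smul_dotProduct, dotProduct_smul]
    simp only [Pi.sub_apply, Pi.smul_apply, smul_eq_mul]
    congr 1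
    field_simp

theorem trans_agree (f : EE k → ℝ) (M : Mir (Fin (k + 2))) (B : Set (EE k)) (hB : IsOpen B)
    (hM : Fits f M B) (x : EE k) (hx : x ∈ B) (hfx : f x = 0) (hf : ContDiffAt ℝ 1 f x)
    (hg : gradient f x ≠ 0) (u : EE k) (hu : inner ℝ u (gradient f x) ≠ 0) :
    OnM M x.ofLp ∧ TrM M x.ofLp u.ofLp := by
  obtain ⟨l, hl, hn⟩ := fits_normal f M B hB hM x hx hfx hf hg
  rw [inner_dot] at hu
  cases M with
  | sph c R =>
    simp only [nrm] at hn
    refine ⟨hM.2 x hx hfx, ?_⟩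
    simp only [TrM]
    rw [hn, smul_dotProduct, smul_eq_mul, dotProduct_comm]
    exact mul_ne_zero hl hu
  | pl ν d =>
    simp only [nrm] at hn
    refine ⟨hM.2 x hx hfx, ?_⟩
    simp only [TrM]
    rw [hn, dotProduct_smul, smul_eq_mul]
    exact mul_ne_zero hl hu

/-- **Ivrii's conjecture for spherical and flat bounces.** For every table `{f < 0}` in `ℝ^d`,
`d ≥ 2`, the set of phase points `(p, u)` whose billiard orbit returns to itself after some
`n ≥ 1` bounces, all of them at boundary points near which the boundary lies in a sphere or in a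
hyperplane, has `(2d-2)`-dimensional measure zero. -/
theorem result :
  ∀ (d : ℕ), 2 ≤ d → ∀ (f : EuclideanSpace ℝ (Fin d) → ℝ),
    MeasureTheory.Measure.hausdorffMeasure ((2 * d - 2 : ℕ) : ℝ)
      {q : EuclideanSpace ℝ (Fin d) × EuclideanSpace ℝ (Fin d) |
        f q.1 = 0 ∧ ‖q.2‖ = 1 ∧ inner ℝ q.2 (gradient f q.1) < 0 ∧
        ∃ n : ℕ, 1 ≤ n ∧ ∃ p u : ℕ → EuclideanSpace ℝ (Fin d),
          p 0 = q.1 ∧ u 0 = q.2 ∧ p n = q.1 ∧ u n = q.2 ∧
          ∀ k < n, f (p k) = 0 ∧ ‖u k‖ = 1 ∧ inner ℝ (u k) (gradient f (p k)) < 0 ∧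
            RoundAt f (p k) ∧
            (∃ t : ℝ, 0 < t ∧ p (k + 1) = p k + t • u k ∧
              ∀ s ∈ Set.Ioo (0 : ℝ) t, f (p k + s • u k) < 0) ∧
            u (k + 1) = u k - (2 * inner ℝ (u k) (gradient f (p (k + 1))) /
                ‖gradient f (p (k + 1))‖ ^ 2) • gradient f (p (k + 1))} = 0 := by
  intro d hd f
  obtain ⟨k, rfl⟩ : ∃ k, d = k + 2 := ⟨d - 2, by omega⟩
  have hdim : (2 * (k + 2) - 2 : ℕ) = (k + 1) + (k + 1) := by omega
  rw [hdim]
  classical
  set 𝓑 := TopologicalSpace.countableBasis (EE k) with h𝓑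
  have hcount : Countable {B : Set (EE k) // B ∈ 𝓑 ∧ ∃ M, Fits f M B} := by
    have h1 : Countable 𝓑 := (TopologicalSpace.countable_countableBasis (EE k)).to_subtype
    exact Function.Injective.countable (f := fun B : {B : Set (EE k) // B ∈ 𝓑 ∧ ∃ M, Fits f M B} =>
      (⟨B.1, B.2.1⟩ : 𝓑)) (fun a b hab => Subtype.ext (congrArg (fun z : 𝓑 => z.1) hab))
  set ι := {B : Set (EE k) // B ∈ 𝓑 ∧ ∃ M, Fits f M B} with hι
  set M : ι → Mir (Fin (k + 2)) := fun B => B.2.2.choose with hM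
  have hMf : ∀ B : ι, Fits f (M B) B.1 := fun B => B.2.2.choose_spec
  have hopen : ∀ B : ι, IsOpen B.1 := fun B =>
    (TopologicalSpace.isBasis_countableBasis (EE k)).isOpen B.2.1
  refine MeasureTheory.measure_mono_null ?_ (phase_null M)
  rintro ⟨q, v⟩ ⟨hfq, hv, hqv, n, hn, p, u, hp0, hu0, hpn, hun, h⟩
  simp only at hfq hv hqv hp0 hu0 hpn hun
  -- data at every index up to `n`
  have data : ∀ m ≤ n, f (p m) = 0 ∧ inner ℝ (u m) (gradient f (p m)) < 0 ∧ RoundAt f (p m) := by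
    intro m hm
    rcases Nat.lt_or_eq_of_le hm with h1 | h1
    · obtain ⟨h2, _, h3, h4, _⟩ := h m h1
      exact ⟨h2, h3, h4⟩
    · obtain ⟨h2, _, h3, h4, _⟩ := h 0 (by omega)
      rw [h1, hpn, hun]
      rw [hp0] at h2 h3 h4
      rw [hu0] at h3
      exact ⟨h2, h3, h4⟩
  have gne : ∀ m ≤ n, gradient f (p m) ≠ 0 := by
    intro m hm h0
    have := (data m hm).2.1
    rw [h0, inner_zero_right] at this
    exact lt_irrefl _ this
  have box : ∀ m ≤ n, ∃ B : ι, p m ∈ B.1 := by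
    intro m hm
    obtain ⟨B, hB, hx, hex⟩ := round_fits f (p m) (data m hm).2.2
    exact ⟨⟨B, hB, hex⟩, hx⟩
  refine ⟨?_, ?_, n, hn, fun m => (p m).ofLp, fun m => (u m).ofLp, ?_, ?_, ?_, ?_, ?_⟩
  · obtain ⟨B, hB⟩ := box 0 (by omega)
    rw [hp0] at hB
    refine ⟨B, ?_⟩
    have hd0 := data 0 (by omega)
    rw [hp0] at hd0
    have hg0 := gne 0 (by omega)
    rw [hp0] at hg0
    exact trans_agree f (M B) B.1 (hopen B) (hMf B) q hB hfq hd0.2.2.1 hg0 v (ne_of_lt hqv)
  · have : v.ofLp ⬝ᵥ v.ofLp = ‖v‖ ^ 2 := by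
      rw [← inner_dot, real_inner_self_eq_norm_sq]
    change v.ofLp ⬝ᵥ v.ofLp = 1
    rw [this, hv]; norm_num
  · simp only [hp0]
  · simp only [hu0]
  · simp only [hpn]
  · simp only [hun]
  · intro m hm
    obtain ⟨_, _, _, _, ⟨t, ht, hpt, _⟩, hu1⟩ := h m hm
    obtain ⟨B, hB⟩ := box (m + 1) (by omega)
    obtain ⟨hd1, hd2, hd3⟩ := data (m + 1) (by omega)
    have hg1 := gne (m + 1) (by omega)
    have htr : inner ℝ (u m) (gradient f (p (m + 1))) ≠ 0 := by
      intro h0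
      rw [h0] at hu1
      have h2 : u (m + 1) = u m := by rw [hu1]; simp
      rw [h2, h0] at hd2
      exact lt_irrefl _ hd2
    have hagr := refl_agree f (M B) B.1 (hopen B) (hMf B) (p (m + 1)) hB hd1 hd3.1 hg1 (u m)
    rw [← hu1] at hagr
    have htm := trans_agree f (M B) B.1 (hopen B) (hMf B) (p (m + 1)) hB hd1 hd3.1 hg1 (u m) htr
    have hmv : (p (m + 1)).ofLp = mv (p m).ofLp t (u m).ofLp := by
      rw [hpt]; rfl
    refine ⟨B, ?_⟩
    have hfit := hMf B
    cases hMB : M B with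
    | sph c R =>
      rw [hMB] at htm hagr hfit
      exact ⟨hfit.1, t, ht, hmv, htm.1, htm.2, hagr⟩
    | pl ν d =>
      rw [hMB] at htm hagr hfit
      exact ⟨hfit.1, t, ht, hmv, htm.1, hagr⟩

end

end Pool.Agent.Results.MP_249f74_an.SphericalFlatBounces
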