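import Pool.Agent.H721R2.Ivrii.NPlane

/-!
# Ivrii's conjecture in the plane for orbits with at most three bounces of nonzero curvature

Definitions (file `Pool/Agent/H721R2/Ivrii/Def.lean`), for a set `Ω` (the table) in a real inner
product space:

* `LocalDef Ω q F`: near `q` the table is `{F < 0}`, `F` is `C³` near `q`, `F q = 0` and the
  gradient of `F` at `q` is not zero;
* `ZeroCurv Ω q`: for some such `F` the second derivative `F''(q)` vanishes on the tangent space,
  i.e. the boundary is regular at `q` and its curvature at the single point `q` is zero;
* `Step Ω q v q' v'`: the particle leaves `q` with velocity `v`, stays in `Ω` until it meets the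
  boundary transversally at `q' = q + t v`, `t > 0`, where the boundary is regular of class `C³`,
  and `v'` is the velocity reflected there;
* `OrbitMod Ω g n p u`: `(p k, u k)` is a billiard trajectory of unit speed which is carried into
  itself by the isometry `g` after `n ≥ 1` bounces: `p (k+n) = g (p k)`, `u (k+n) = g' (u k)`, where
  `g'` is the linear part of `g`;
* `PerMod Γ Ω`: the phase points `(q, v)` which start such a trajectory for some `g ∈ Γ` and some
  `n`, at most three of the `n` bounces being at points of nonzero curvature.

The theorem: if `Γ` is a countable set of isometries preserving the subset `Ω` of the Euclidean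
plane, then `PerMod Γ Ω` has vanishing two-dimensional Hausdorff measure (the phase space is a
surface in `ℝ² × ℝ²`). For `Γ = {id}` these are the periodic orbits: almost every periodic point of
any table has at least four bounces of nonzero curvature in a period.
-/

set_option autoImplicit false

open MeasureTheory

namespace Pool.Agent.Results.MP_249f74_an.ThreeCurvedModIsometry

open Pool.Agent.H721R2.Ivrii

/-- For every planar table `Ω` and every countable set `Γ` of isometries preserving `Ω`, the phase
points whose trajectory is periodic modulo `Γ`, with any number of bounces in a period, at most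
three of which are at points of nonzero curvature, form a set of measure zero. -/
theorem result (Ω : Set (EuclideanSpace ℝ (Fin 2)))
    (Γ : Set (EuclideanSpace ℝ (Fin 2) ≃ᵃⁱ[ℝ] EuclideanSpace ℝ (Fin 2)))
    (hΓ : Γ.Countable) (hinv : ∀ g ∈ Γ, g ⁻¹' Ω = Ω) : μH[2] (PerMod Γ Ω) = 0 :=
  plane_mod_null Ω Γ hΓ hinv

end Pool.Agent.Results.MP_249f74_an.ThreeCurvedModIsometry
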